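import Mathlib
import Pool.Agent.Helper232.VN.Min

set_option autoImplicit false

namespace Pool.Agent.Results.MP_57313b_al.SmallRegular

/-- `N` is an indecomposable injective `S`-module (nonzero); right `R`-modules are modules over
`Rᵐᵒᵖ` -/
def IndecInj (S : Type) [Ring S] (N : Type) [AddCommGroup N] [Module S N] : Prop :=
  Module.Injective S N ∧ Nontrivial N ∧ ∀ A B : Submodule S N, IsCompl A B → A = ⊥ ∨ B = ⊥

/-- von Neumann regular rings -/
def Regular (R : Type) [Ring R] : Prop := ∀ a : R, ∃ x : R, a * x * a = a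

/-- `N e ≠ 0` for a right `R`-module `N` -/
def Alive {R : Type} [Ring R] (e : R) (N : Type) [AddCommGroup N] [Module Rᵐᵒᵖ N] : Prop :=
  ∃ v : N, MulOpposite.op e • v ≠ 0

/-- `N` is the only indecomposable injective right `R`-module with `N e ≠ 0` -/
def OnlyAlive {R : Type} [Ring R] (e : R) (N : Type) [AddCommGroup N] [Module Rᵐᵒᵖ N] : Prop :=
  Alive e N ∧ ∀ (N' : Type) [AddCommGroup N'] [Module Rᵐᵒᵖ N'], IndecInj Rᵐᵒᵖ N' → Alive e N' →
    Nonempty (N' ≃ₗ[Rᵐᵒᵖ] N)

open Zg ZIso Pool.Agent.Helper232.VN in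
theorem isolated (k : Type) [Field k] (R : Type) [Ring R] [Algebra k R]
    (hdim : Module.rank k R < Cardinal.continuum) (hreg : Regular R)
    (N : Type) [AddCommGroup N] [Module Rᵐᵒᵖ N] (hN : IndecInj Rᵐᵒᵖ N)
    (e : R) (he : e * e = e) (heN : OnlyAlive e N) :
    ∃ g : R, g * g = g ∧ g ≠ 0 ∧ (∀ s : R, g * s ≠ 0 → ∃ t : R, g * s * t = g) ∧
      (∀ s : R, s * g ≠ 0 → ∃ t : R, t * s * g = g) ∧ OnlyAlive g N := by
  have hreg' : ∀ a : Rᵐᵒᵖ, ∃ x : Rᵐᵒᵖ, a * x * a = a := by
    intro a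
    obtain ⟨x, hx⟩ := hreg a.unop
    refine ⟨MulOpposite.op x, MulOpposite.unop_injective ?_⟩
    rw [MulOpposite.unop_mul, MulOpposite.unop_mul, MulOpposite.unop_op, ← mul_assoc, hx]
  have hdim' : Module.rank k Rᵐᵒᵖ < Cardinal.continuum := by
    rw [← (MulOpposite.opLinearEquiv k : R ≃ₗ[k] Rᵐᵒᵖ).rank_eq]
    exact hdim
  let N0 : IndecPureInjective Rᵐᵒᵖ := ⟨N, pureInjective_of_injective N hN.1, hN.2⟩
  let φe : PPFormula Rᵐᵒᵖ := ⟨1, 1, fun _ _ => MulOpposite.op e, fun _ => 1⟩
  let ψ0 : PPFormula Rᵐᵒᵖ := ⟨0, 1, fun _ i => i.elim0, fun _ => 1⟩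
  have hφe : ∀ (Q : Type) [AddCommGroup Q] [Module Rᵐᵒᵖ Q] (v : Q),
      v ∈ φe.sol Q ↔ ∃ z : Q, MulOpposite.op e • z = v := by
    intro Q _ _ v
    constructor
    · rintro ⟨z, hz⟩
      refine ⟨z 0, ?_⟩
      simpa [φe] using hz 0
    · rintro ⟨z, hz⟩
      refine ⟨fun _ => z, fun j => ?_⟩
      simpa [φe] using hz
  have hψ0 : ∀ (Q : Type) [AddCommGroup Q] [Module Rᵐᵒᵖ Q] (v : Q),
      v ∈ ψ0.sol Q ↔ v = 0 := by
    intro Q _ _ v
    constructor
    · rintro ⟨z, hz⟩
      have := hz 0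
      simpa [ψ0] using this.symm
    · rintro rfl
      refine ⟨fun i => i.elim0, fun j => ?_⟩
      simp [ψ0]
  have hle : ψ0.Le φe := by
    intro Q _ _ v hv
    rw [hψ0] at hv
    rw [hφe, hv]
    exact ⟨0, smul_zero _⟩
  have halive : ∀ (Q : Type) [AddCommGroup Q] [Module Rᵐᵒᵖ Q],
      φe.sol Q ≠ ψ0.sol Q ↔ Alive e Q := by
    intro Q _ _
    constructor
    · intro h
      by_contra hcon
      apply h
      refine Set.Subset.antisymm ?_ (hle Q)
      intro v hv
      obtain ⟨z, hz⟩ := (hφe Q v).1 hv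
      rw [hψ0, ← hz]
      by_contra h2
      exact hcon ⟨z, h2⟩
    · rintro ⟨v, hv⟩ heq
      have h1 : MulOpposite.op e • v ∈ φe.sol Q := (hφe Q _).2 ⟨v, rfl⟩
      rw [heq, hψ0] at h1
      exact hv h1
  have hinj : ∀ P : IndecPureInjective Rᵐᵒᵖ, IndecInj Rᵐᵒᵖ P.carrier := fun P =>
    ⟨injective_of_pureInjective hreg' P.carrier P.pureInjective, P.indecomposable⟩
  have hset : basicSet φe ψ0 = {zgPoint N0} := by
    refine Set.Subset.antisymm ?_ ?_
    · rintro x ⟨P, rfl, hP⟩
      obtain ⟨i⟩ := heN.2 P.carrier (hinj P) ((halive _).1 hP)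
      exact Quotient.sound ⟨i⟩
    · rintro x rfl
      exact ⟨N0, rfl, (halive N).2 heN.1⟩
  have hopen : IsOpen ({zgPoint N0} : Set (ZieglerSpectrum Rᵐᵒᵖ)) := by
    rw [← hset]
    exact TopologicalSpace.isOpen_generateFrom_of_mem ⟨φe, ψ0, hle, rfl⟩
  obtain ⟨φ, ψ, h1, h2, h3, h4⟩ := exists_minimal k hdim' N0 hopen
  obtain ⟨g, hgg, hg0, hgs, hgQ⟩ := min_ideal hreg' φ ψ ⟨h2, h3, h4⟩
  obtain ⟨g', rfl⟩ : ∃ g' : R, MulOpposite.op g' = g := ⟨g.unop, rfl⟩
  have k1 : g' * g' = g' := by
    have := congrArg MulOpposite.unop hgg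
    simpa using this
  have k2 : ∀ s : R, s * g' ≠ 0 → ∃ t : R, t * s * g' = g' := by
    intro s hs
    obtain ⟨t, ht⟩ := hgs (MulOpposite.op s) (by
      intro h
      apply hs
      have := congrArg MulOpposite.unop h
      simpa using this)
    refine ⟨t.unop, ?_⟩
    have := congrArg MulOpposite.unop ht
    simp only [MulOpposite.unop_op, MulOpposite.unop_mul] at this
    rw [mul_assoc]
    exact this.symm
  have hg0' : g' ≠ 0 := fun h => hg0 (by rw [h, MulOpposite.op_zero])
  refine ⟨g', k1, hg0', ?_, k2, ?_, ?_⟩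
  · intro s hs
    obtain ⟨x, hx⟩ := hreg (g' * s)
    obtain ⟨p, hp⟩ : ∃ p : R, p = g' * s * x * g' := ⟨_, rfl⟩
    have m1 : p * p = p := by
      rw [hp]
      calc g' * s * x * g' * (g' * s * x * g') = g' * s * x * (g' * g') * s * x * g' := by
            noncomm_ring
        _ = (g' * s) * x * (g' * s) * x * g' := by rw [k1]; noncomm_ring
        _ = g' * s * x * g' := by rw [hx]
    have m2 : g' * p = p := by
      rw [hp]
      calc g' * (g' * s * x * g') = (g' * g') * s * x * g' := by noncomm_ring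
        _ = _ := by rw [k1]
    have m3 : p * g' = p := by
      rw [hp, mul_assoc, k1]
    have m4 : p ≠ 0 := by
      intro h
      apply hs
      have h5 : p * s = g' * s := by
        rw [hp]
        calc g' * s * x * g' * s = (g' * s) * x * (g' * s) := by noncomm_ring
          _ = _ := hx
      rw [← h5, h, zero_mul]
    have m5 : g' = p := by
      by_contra hcon
      obtain ⟨t, ht⟩ := k2 (g' - p) (by
        rw [sub_mul, k1, m3]
        exact sub_ne_zero.2 hcon)
      have m6 : t * (g' - p) * g' * p = g' * p := by rw [ht]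
      rw [mul_assoc _ g' p, m2, mul_assoc, sub_mul, m2, m1, sub_self, mul_zero] at m6
      exact m4 m6.symm
    refine ⟨x * g', ?_⟩
    rw [← mul_assoc, ← hp, ← m5]
  · by_contra hcon
    have h5 : φ.sol N ≠ ψ.sol N := by
      have h6 : zgPoint N0 ∈ basicSet φ ψ := by rw [h1]; rfl
      obtain ⟨P, hP1, hP2⟩ := h6
      obtain ⟨i⟩ := Cb.zg_exact_aux hP1
      intro h7
      apply hP2
      have h8 := (hgQ N).2 h7
      apply (hgQ P.carrier).1
      intro v
      apply i.injective
      rw [map_smul, map_zero]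
      exact h8 _
    apply h5
    apply (hgQ N).1
    intro v
    by_contra h6
    exact hcon ⟨v, h6⟩
  · intro N' _ _ hN' hal
    let P : IndecPureInjective Rᵐᵒᵖ := ⟨N', pureInjective_of_injective N' hN'.1, hN'.2⟩
    have h5 : zgPoint P ∈ basicSet φ ψ := by
      refine ⟨P, rfl, ?_⟩
      intro h6
      obtain ⟨v, hv⟩ := hal
      exact hv ((hgQ N').2 h6 v)
    rw [h1] at h5
    obtain ⟨i⟩ := Cb.zg_exact_aux (h5 : zgPoint P = zgPoint N0)
    exact ⟨i⟩

/-- **(A)** A simple von Neumann regular ring `R` whose dimension over its centre (a field) is less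
than the continuum and which has exactly one indecomposable injective right module is artinian.
**(B)** Every von Neumann regular algebra `R` of dimension less than the continuum over a field `k`
(of any cardinality) satisfies the isolation condition: for every factor algebra `R'` of `R`
(closed subset of the spectrum) and every indecomposable injective right `R'`-module `N` which for
some idempotent `e` of `R'` is the only one with `N e ≠ 0` (isolated point), there is an idempotent
`g` of `R'` such that `g R'` is a minimal right ideal and `N` is the only indecomposable injective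
right `R'`-module with `N g ≠ 0`. -/
theorem result :
    (∀ (R : Type) [Ring R], Regular R → IsSimpleRing R →
      Module.rank (Subring.center R) R < Cardinal.continuum →
      (∃ (M : Type) (_ : AddCommGroup M) (_ : Module Rᵐᵒᵖ M), IndecInj Rᵐᵒᵖ M ∧
        ∀ (N : Type) [AddCommGroup N] [Module Rᵐᵒᵖ N], IndecInj Rᵐᵒᵖ N →
          Nonempty (N ≃ₗ[Rᵐᵒᵖ] M)) → IsArtinianRing R) ∧
    (∀ (k : Type) [Field k] (R : Type) [Ring R] [Algebra k R],
      Module.rank k R < Cardinal.continuum → Regular R →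
      ∀ (R' : Type) [Ring R'] [Algebra k R'] (π : R →ₐ[k] R'), Function.Surjective π →
      ∀ (N : Type) [AddCommGroup N] [Module R'ᵐᵒᵖ N], IndecInj R'ᵐᵒᵖ N →
      (∃ e : R', e * e = e ∧ OnlyAlive e N) →
      ∃ g : R', g * g = g ∧ g ≠ 0 ∧ (∀ s : R', g * s ≠ 0 → ∃ t : R', g * s * t = g) ∧
        OnlyAlive g N) := by
  constructor
  · intro R _ hreg hs hdim ⟨M, i1, i2, hM, huniq⟩
    letI : Field (Subring.center R) := (IsSimpleRing.isField_center R).toField
    obtain ⟨g, hgg, hg0, -, hgs, -⟩ := isolated (Subring.center R) R hdim hreg M hM 1 (mul_one 1)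
      ⟨by
        obtain ⟨v, hv⟩ := @exists_ne M hM.2.1 0
        exact ⟨v, by rw [MulOpposite.op_one, one_smul]; exact hv⟩,
        fun N' _ _ hN' _ => huniq N' hN'⟩
    have hatom : ∃ I : Ideal R, IsAtom I := by
      refine ⟨Ideal.span {g}, ?_, ?_⟩
      · intro h
        rw [Ideal.span_singleton_eq_bot] at h
        exact hg0 h
      · intro J hJ
        by_contra hne
        obtain ⟨j, hjJ, hj0⟩ := (Submodule.ne_bot_iff J).1 hne
        obtain ⟨a, ha⟩ := Ideal.mem_span_singleton'.1 (hJ.le hjJ)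
        obtain ⟨t, ht⟩ := hgs a (by rw [ha]; exact hj0)
        apply hJ.not_ge
        rw [Ideal.span_le]
        rintro x rfl
        rw [SetLike.mem_coe, ← ht, mul_assoc, ha]
        exact J.mul_mem_left t hjJ
    exact ((IsSimpleRing.tfae (R := R)).out 2 1).1 hatom
  · intro k _ R _ _ hdim hreg R' _ _ π hπ N _ _ hN ⟨e, he, heN⟩
    have hreg' : Regular R' := by
      intro a
      obtain ⟨b, rfl⟩ := hπ a
      obtain ⟨x, hx⟩ := hreg b
      exact ⟨π x, by rw [← map_mul, ← map_mul, hx]⟩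
    have hdim' : Module.rank k R' < Cardinal.continuum :=
      lt_of_le_of_lt (LinearMap.rank_le_of_surjective π.toLinearMap hπ) hdim
    obtain ⟨g, h1, h2, h3, -, h4⟩ := isolated k R' hdim' hreg' N hN e he heN
    exact ⟨g, h1, h2, h3, h4⟩

end Pool.Agent.Results.MP_57313b_al.SmallRegular
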