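import Mathlib

/-!
# A simple non-artinian von Neumann regular ring with a unique simple module, which is injective

Let `F` be an ultrapower (over a non-principal ultrafilter on `ℕ`) of the field `K0` of rational
functions over `ℚ` in the variables `X_0, X_1, …`.  The permutations of `{0, …, n}` act on `F`; let
`EE n` be the fixed field.  The ring is (the opposite of) `RR = ⋃_n End_{EE n}(F)`.  Each
`End_{EE n}(F)` is simple artinian, so `RR` is simple and von Neumann regular, and it is not
artinian.  Every left ideal of `RR` meets `End_{EE n}(F)` in a principal left ideal, generated by an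
operator which is internal in the ultrapower, and the countable saturation of the ultrapower shows
both that every proper left ideal kills a non-zero element of `F` and that `F` is injective.
-/

set_option autoImplicit false

namespace Pool.Agent.Results.MP_57313b_al.UniqueSimple

open Filter

/-- diagonal argument -/
theorem sat {K : Type} (P : ℕ → ℕ → K → Prop)
    (h : ∀ n, ∃ x : ℕ → K, ∀ᶠ i in (hyperfilter ℕ : Filter ℕ), ∀ j ≤ n, P j i (x i)) :
    ∃ x : ℕ → K, ∀ j, ∀ᶠ i in (hyperfilter ℕ : Filter ℕ), P j i (x i) := by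
  classical
  obtain ⟨x0, _⟩ := h 0
  let N : ℕ → ℕ := fun i => Nat.findGreatest (fun n => ∃ y, ∀ j ≤ n, P j i y) i
  let x : ℕ → K := fun i => if h : ∃ y, ∀ j ≤ N i, P j i y then h.choose else x0 i
  refine ⟨x, fun j => ?_⟩
  obtain ⟨y, hy⟩ := h j
  have hj : ∀ᶠ i in (hyperfilter ℕ : Filter ℕ), j ≤ i :=
    (Nat.hyperfilter_le_atTop) (eventually_ge_atTop j)
  filter_upwards [hy, hj] with i h1 h2
  have h3 : ∃ y, ∀ j' ≤ j, P j' i y := ⟨y i, h1⟩
  have h4 : j ≤ N i := Nat.le_findGreatest h2 h3
  have h5 : ∃ y, ∀ j ≤ N i, P j i y :=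
    Nat.findGreatest_spec (P := fun n => ∃ y, ∀ j ≤ n, P j i y) h2 h3
  simp only [x, dif_pos h5]
  exact h5.choose_spec j h4

/-- the ultrapower of a type along the hyperfilter on the naturals -/
abbrev UP (K : Type) : Type := Germ (hyperfilter ℕ : Filter ℕ) K

/-- internal self-maps of the ultrapower -/
def Internal {K : Type} (T : UP K → UP K) : Prop :=
  ∃ t : ℕ → K → K, ∀ x : ℕ → K, T (↑x : UP K) = (↑(fun i => t i (x i)) : UP K)

theorem satF {K : Type} (c : K → Prop) (T : ℕ → UP K → UP K) (hT : ∀ j, Internal (T j))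
    (u : ℕ → UP K) (h : ∀ n, ∃ w : UP K, Germ.LiftPred c w ∧ ∀ j ≤ n, T j w = u j) :
    ∃ w : UP K, Germ.LiftPred c w ∧ ∀ j, T j w = u j := by
  classical
  choose t ht using hT
  have hu : ∀ j, ∃ f : ℕ → K, (↑f : UP K) = u j := fun j =>
    Germ.inductionOn (u j) (fun f => ⟨f, rfl⟩)
  choose f hf using hu
  obtain ⟨x, hx⟩ := sat (fun j i y => c y ∧ t j i y = f j i) (by
    intro n
    obtain ⟨w, hw1, hw2⟩ := h n
    induction w using Germ.inductionOn with
    | _ w =>
    refine ⟨w, ?_⟩
    rw [Germ.liftPred_coe] at hw1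
    have h2 : ∀ᶠ i in (hyperfilter ℕ : Filter ℕ), ∀ j ∈ Finset.range (n+1),
        t j i (w i) = f j i := by
      rw [Filter.eventually_all_finset]
      intro j hj
      have := hw2 j (by simpa [Nat.lt_succ_iff] using hj)
      rw [ht, ← hf j, Germ.coe_eq] at this
      exact this
    filter_upwards [hw1, h2] with i h3 h4 j hj
    exact ⟨h3, h4 j (by simpa [Nat.lt_succ_iff] using hj)⟩)
  refine ⟨(↑x : UP K), ?_, fun j => ?_⟩
  · rw [Germ.liftPred_coe]
    filter_upwards [hx 0] with i hi using hi.1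
  · rw [ht, ← hf j, Germ.coe_eq]
    filter_upwards [hx j] with i hi using hi.2

theorem liftPred_ne {K : Type} [Zero K] (w : UP K) :
    Germ.LiftPred (fun y : K => y ≠ 0) w ↔ w ≠ 0 := by
  induction w using Germ.inductionOn with
  | _ w =>
  rw [Germ.liftPred_coe]
  have : (0 : UP K) = (↑(fun _ : ℕ => (0 : K)) : UP K) := rfl
  rw [this, Ne, Germ.coe_eq]
  rw [Filter.EventuallyEq, ← Ultrafilter.eventually_not]

theorem liftPred_true {K : Type} (w : UP K) : Germ.LiftPred (fun _ : K => True) w := by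
  induction w using Germ.inductionOn with
  | _ w =>
  rw [Germ.liftPred_coe]
  exact Filter.Eventually.of_forall fun _ => trivial

section abstract_

variable {K : Type} [Field K] {S : Type} [Ring S] [Module S (UP K)]
  (A : ℕ → Subring S) (hmono : Monotone A) (hA : ∀ s, ∃ n, s ∈ A n)
  (hss : ∀ n, IsSemisimpleRing (A n))
  (hint : ∀ s : S, Internal (fun x : UP K => s • x))
  (hker : ∀ n, ∀ p ∈ A n, (∀ x : UP K, p • x = 0 → x = 0) → ∃ q : S, q * p = 1)

include hss in
theorem gens (L : Ideal S) : ∃ p : ℕ → S, ∀ n, p n ∈ A n ∧ p n ∈ L ∧ p n * p n = p n ∧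
    ∀ a ∈ A n, a ∈ L → a * p n = a := by
  have key : ∀ n, ∃ p : S, p ∈ A n ∧ p ∈ L ∧ p * p = p ∧ ∀ a ∈ A n, a ∈ L → a * p = a := by
    intro n
    have := hss n
    obtain ⟨e, he, hL⟩ := IsSemisimpleRing.ideal_eq_span_idempotent (L.comap (A n).subtype)
    have he2 : (e : S) * e = e := congrArg Subtype.val he
    refine ⟨e, e.2, ?_, he2, ?_⟩
    · have : e ∈ L.comap (A n).subtype := by rw [hL]; exact Ideal.mem_span_singleton_self e
      exact this
    · intro a ha haL
      have : (⟨a, ha⟩ : A n) ∈ L.comap (A n).subtype := haL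
      rw [hL, Ideal.mem_span_singleton'] at this
      obtain ⟨b, hb⟩ := this
      have hb2 : (b : S) * e = a := congrArg Subtype.val hb
      rw [← hb2, mul_assoc, he2]
  choose p hp using key
  exact ⟨p, hp⟩

include hmono hA hss hint hker in
theorem exists_killed (L : Ideal S) (hL : L ≠ ⊤) : ∃ v : UP K, v ≠ 0 ∧ ∀ s ∈ L, s • v = 0 := by
  obtain ⟨p, hp⟩ := gens A hss L
  obtain ⟨w, hw, hw2⟩ := satF (fun y : K => y ≠ 0) (fun j => fun x : UP K => p j • x)
    (fun j => hint (p j)) (fun _ => 0) (by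
      intro n
      by_contra hcon
      apply hL
      obtain ⟨q, hq⟩ := hker n (p n) (hp n).1 (by
        intro x hx
        by_contra hx0
        apply hcon
        refine ⟨x, (liftPred_ne x).2 hx0, fun j hj => ?_⟩
        have h1 : p j * p n = p j := (hp n).2.2.2 (p j) (hmono hj (hp j).1) (hp j).2.1
        show p j • x = 0
        rw [← h1, mul_smul, hx, smul_zero])
      rw [Ideal.eq_top_iff_one, ← hq]
      exact L.mul_mem_left q (hp n).2.1)
  refine ⟨w, (liftPred_ne w).1 hw, fun s hs => ?_⟩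
  obtain ⟨n, hn⟩ := hA s
  rw [← (hp n).2.2.2 s hn hs, mul_smul]
  have : p n • w = 0 := hw2 n
  rw [this, smul_zero]

include hmono hA hss hint in
theorem baer : Module.Baer S (UP K) := by
  intro L g
  obtain ⟨p, hp⟩ := gens A hss L
  obtain ⟨w, -, hw2⟩ := satF (fun _ : K => True) (fun j => fun x : UP K => p j • x)
    (fun j => hint (p j)) (fun j => g ⟨p j, (hp j).2.1⟩) (by
      intro n
      refine ⟨g ⟨p n, (hp n).2.1⟩, ?_, ?_⟩
      · exact liftPred_true _
      · intro j hj
        have h1 : p j * p n = p j := (hp n).2.2.2 (p j) (hmono hj (hp j).1) (hp j).2.1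
        show p j • g ⟨p n, (hp n).2.1⟩ = g ⟨p j, (hp j).2.1⟩
        rw [← map_smul]
        congr 1
        exact Subtype.ext h1)
  refine ⟨LinearMap.toSpanSingleton S (UP K) w, fun s hs => ?_⟩
  obtain ⟨n, hn⟩ := hA s
  have h1 : s * p n = s := (hp n).2.2.2 s hn hs
  have h2 : p n • w = g ⟨p n, (hp n).2.1⟩ := hw2 n
  rw [LinearMap.toSpanSingleton_apply]
  calc s • w = s • (p n • w) := by rw [← mul_smul, h1]
    _ = g (s • ⟨p n, (hp n).2.1⟩) := by rw [h2, map_smul]
    _ = g ⟨s, hs⟩ := by congr 1; exact Subtype.ext h1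

include hA hss in
theorem vnr (a : S) : ∃ x : S, a * x * a = a := by
  obtain ⟨n, hn⟩ := hA a
  have := hss n
  obtain ⟨e, he, hL⟩ := IsSemisimpleRing.ideal_eq_span_idempotent (Ideal.span {(⟨a, hn⟩ : A n)})
  have h1 : e ∈ Ideal.span {(⟨a, hn⟩ : A n)} := by rw [hL]; exact Ideal.mem_span_singleton_self e
  have h2 : (⟨a, hn⟩ : A n) ∈ Ideal.span {e} := by
    rw [← hL]; exact Ideal.mem_span_singleton_self _
  rw [Ideal.mem_span_singleton'] at h1 h2
  obtain ⟨x, hx⟩ := h1
  obtain ⟨y, hy⟩ := h2
  refine ⟨x, ?_⟩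
  have hx2 : (x : S) * a = e := congrArg Subtype.val hx
  have hy2 : (y : S) * e = a := congrArg Subtype.val hy
  have he2 : (e : S) * e = e := congrArg Subtype.val he
  rw [mul_assoc, hx2]
  conv_lhs => rw [← hy2]
  rw [mul_assoc, he2, hy2]

include hA in
theorem simple_union (hs : ∀ n, IsSimpleRing (A n)) : IsSimpleRing S := by
  have : Nontrivial S := by
    have := hs 0
    exact (A 0).subtype_injective.nontrivial
  refine ⟨⟨fun I => ?_⟩⟩
  by_cases h : ∃ n, I.comap (A n).subtype = ⊤
  · right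
    obtain ⟨n, hn⟩ := h
    have h1 : (1 : A n) ∈ I.comap (A n).subtype := by rw [hn]; trivial
    rw [TwoSidedIdeal.mem_comap] at h1
    rw [eq_top_iff]
    intro x _
    have := I.mul_mem_left x _ h1
    simpa using this
  · left
    push Not at h
    rw [eq_bot_iff]
    intro x hx
    obtain ⟨n, hn⟩ := hA x
    have := hs n
    have h2 : I.comap (A n).subtype = ⊥ := (eq_bot_or_eq_top _).resolve_right (h n)
    have h3 : (⟨x, hn⟩ : A n) ∈ I.comap (A n).subtype := by
      rw [TwoSidedIdeal.mem_comap]; exact hx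
    rw [h2, TwoSidedIdeal.mem_bot] at h3
    have h4 : x = 0 := congrArg Subtype.val h3
    rw [TwoSidedIdeal.mem_bot]
    exact h4

end abstract_


section modules

variable {S F : Type} [Ring S] [AddCommGroup F] [Module S F]

theorem simpleF [Nontrivial F] (ht : ∀ x y : F, x ≠ 0 → ∃ s : S, s • x = y) :
    IsSimpleModule S F := by
  rw [isSimpleModule_iff_toSpanSingleton_surjective]
  refine ⟨inferInstance, fun x hx y => ?_⟩
  obtain ⟨s, hs⟩ := ht x y hx
  exact ⟨s, hs⟩

theorem simple_iso [IsSimpleModule S F]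
    (hk : ∀ L : Ideal S, L ≠ ⊤ → ∃ v : F, v ≠ 0 ∧ ∀ s ∈ L, s • v = 0)
    (M : Type) [AddCommGroup M] [Module S M] [IsSimpleModule S M] : Nonempty (M ≃ₗ[S] F) := by
  have : Nontrivial M := IsSimpleModule.nontrivial S M
  obtain ⟨m, hm⟩ := exists_ne (0 : M)
  let f : S →ₗ[S] M := LinearMap.toSpanSingleton S M m
  have hf : Function.Surjective f := IsSimpleModule.toSpanSingleton_surjective S hm
  have hL : LinearMap.ker f ≠ ⊤ := by
    intro h
    apply hm
    have : (1 : S) ∈ LinearMap.ker f := by rw [h]; trivial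
    simpa [f] using this
  obtain ⟨v, hv, hv2⟩ := hk (LinearMap.ker f) hL
  let g : S →ₗ[S] F := LinearMap.toSpanSingleton S F v
  have hle : LinearMap.ker f ≤ LinearMap.ker g := by
    intro s hs
    exact hv2 s hs
  let φ : M →ₗ[S] F := ((LinearMap.ker f).liftQ g hle).comp
    (f.quotKerEquivOfSurjective hf).symm.toLinearMap
  have hφ : φ ≠ 0 := by
    intro h
    apply hv
    have h1 : φ m = v := by
      have h2 : m = f 1 := by simp [f]
      have h3 : (f.quotKerEquivOfSurjective hf).symm m = (LinearMap.ker f).mkQ 1 := by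
        rw [LinearEquiv.symm_apply_eq, h2]
        rfl
      show ((LinearMap.ker f).liftQ g hle) ((f.quotKerEquivOfSurjective hf).symm m) = v
      rw [h3]
      simp [g]
    rw [← h1, h]
    rfl
  exact ⟨LinearEquiv.ofBijective φ (LinearMap.bijective_of_ne_zero hφ)⟩

theorem indec_iso [IsSimpleModule S F] (hi : Module.Injective S F)
    (hs : ∀ (M : Type) [AddCommGroup M] [Module S M], IsSimpleModule S M →
      Nonempty (M ≃ₗ[S] F))
    (N : Type) [AddCommGroup N] [Module S N]
    (hdec : ∀ A B : Submodule S N, IsCompl A B → A = ⊥ ∨ A = ⊤)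
    (W : Submodule S N) (hW : IsSimpleModule S W) : Nonempty (N ≃ₗ[S] F) := by
  obtain ⟨e⟩ := hs W hW
  obtain ⟨h, hh⟩ := hi.out W.subtype W.injective_subtype e.toLinearMap
  have hc : IsCompl W (LinearMap.ker h) := by
    rw [isCompl_iff, Submodule.disjoint_def, codisjoint_iff, eq_top_iff]
    constructor
    · intro x hx hx2
      have h1 : h x = e ⟨x, hx⟩ := hh ⟨x, hx⟩
      rw [LinearMap.mem_ker, h1] at hx2
      have := e.map_eq_zero_iff.1 hx2
      exact congrArg Subtype.val this
    · intro x _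
      rw [Submodule.mem_sup]
      refine ⟨(e.symm (h x) : W), (e.symm (h x)).2, x - (e.symm (h x) : W), ?_, by abel⟩
      rw [LinearMap.mem_ker, map_sub]
      have h1 : h ((e.symm (h x) : W) : N) = e (e.symm (h x)) := hh (e.symm (h x))
      rw [h1]
      simp
  rcases hdec _ _ hc with h1 | h1
  · exfalso
    have : Nontrivial W := IsSimpleModule.nontrivial S W
    rw [Submodule.nontrivial_iff_ne_bot] at this
    exact this h1
  · exact ⟨(Submodule.topEquiv.symm.trans (LinearEquiv.ofEq _ _ h1.symm)).trans e⟩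

end modules


section endring

variable {F : Type} [Field F]

/-- additive endomorphisms of a field linear over a subfield -/
def endRing (E : Subfield F) : Subring (AddMonoid.End F) where
  carrier := {T | ∀ c ∈ E, ∀ x, T (c * x) = c * T x}
  mul_mem' := by
    intro a b ha hb c hc x
    show a (b (c * x)) = c * a (b x)
    rw [hb c hc, ha c hc]
  one_mem' := by
    intro c _ x
    rfl
  add_mem' := by
    intro a b ha hb c hc x
    show a (c * x) + b (c * x) = c * (a x + b x)
    rw [hb c hc, ha c hc, mul_add]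
  zero_mem' := by
    intro c _ x
    show (0 : F) = c * 0
    rw [mul_zero]
  neg_mem' := by
    intro a ha c hc x
    show - a (c * x) = c * (- a x)
    rw [ha c hc, mul_neg]

theorem mem_endRing (E : Subfield F) (T : AddMonoid.End F) :
    T ∈ endRing E ↔ ∀ c ∈ E, ∀ x, T (c * x) = c * T x := Iff.rfl

theorem endRing_anti {E E' : Subfield F} (h : E' ≤ E) : endRing E ≤ endRing E' :=
  fun _ hT c hc x => hT c (h hc) x

/-- the linear map attached to a member of `endRing` -/
def toLin {E : Subfield F} (T : endRing E) : Module.End E F where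
  toFun := T.1
  map_add' := map_add T.1
  map_smul' := fun c x => T.2 c c.2 x

/-- `endRing E` is the ring of `E`-linear endomorphisms -/
def endEquiv (E : Subfield F) : endRing E ≃+* Module.End E F where
  toFun := toLin
  invFun T := ⟨T.toAddMonoidHom, fun c hc x => T.map_smul ⟨c, hc⟩ x⟩
  left_inv _ := rfl
  right_inv _ := rfl
  map_mul' _ _ := rfl
  map_add' _ _ := rfl

theorem ss_endRing (E : Subfield F) [FiniteDimensional E F] : IsSemisimpleRing (endRing E) := by
  have : IsSemisimpleRing (Module.End E F) := IsSemisimpleRing.moduleEnd E F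
  exact (endEquiv E).symm.isSemisimpleRing

theorem simple_of_equiv {A B : Type} [Ring A] [Ring B] (e : A ≃+* B) [IsSimpleRing A] :
    IsSimpleRing B := by
  have : Nontrivial B := e.injective.nontrivial
  refine ⟨⟨fun I => ?_⟩⟩
  rcases eq_bot_or_eq_top (I.comap (e : A →+* B)) with h | h
  · left
    rw [eq_bot_iff]
    intro x hx
    have h3 : e.symm x ∈ I.comap (e : A →+* B) := by
      rw [TwoSidedIdeal.mem_comap]; simpa using hx
    rw [h, TwoSidedIdeal.mem_bot] at h3
    rw [TwoSidedIdeal.mem_bot]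
    simpa using h3
  · right
    have h1 : (1 : A) ∈ I.comap (e : A →+* B) := by rw [h]; trivial
    rw [TwoSidedIdeal.mem_comap] at h1
    rw [eq_top_iff]
    intro x _
    have := I.mul_mem_left x _ h1
    simpa using this

theorem simple_endRing (E : Subfield F) [FiniteDimensional E F] : IsSimpleRing (endRing E) := by
  classical
  let b := Module.finBasis E F
  have : Nonempty (Fin (Module.finrank E F)) := ⟨⟨0, Module.finrank_pos⟩⟩
  have h1 : IsSimpleRing (Matrix (Fin (Module.finrank E F)) (Fin (Module.finrank E F)) E) :=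
    inferInstance
  have h2 : IsSimpleRing (Module.End E F) :=
    simple_of_equiv (algEquivMatrix b).symm.toRingEquiv
  exact simple_of_equiv (endEquiv E).symm

theorem inv_endRing (E : Subfield F) [FiniteDimensional E F] (T : AddMonoid.End F)
    (hT : T ∈ endRing E) (hk : ∀ x, T x = 0 → x = 0) : ∃ T' ∈ endRing E, T' * T = 1 := by
  let t : Module.End E F := endEquiv E ⟨T, hT⟩
  have ht : LinearMap.ker t = ⊥ := by
    rw [LinearMap.ker_eq_bot']
    exact hk
  obtain ⟨g, hg⟩ := LinearMap.exists_leftInverse_of_injective t ht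
  refine ⟨((endEquiv E).symm g : endRing E), ((endEquiv E).symm g).2, ?_⟩
  have h3 : (endEquiv E).symm g * ⟨T, hT⟩ = 1 := by
    apply (endEquiv E).injective
    rw [map_mul, map_one, RingEquiv.apply_symm_apply]
    exact hg
  exact congrArg Subtype.val h3

end endring

section galois

variable {K : Type} [Field K] {G : Type} [Group G] [MulSemiringAction G K]

noncomputable instance germAct : MulSemiringAction G (UP K) where
  __ := (inferInstance : DistribMulAction G (UP K))
  smul_one g := by
    show ((↑(g • (fun _ : ℕ => (1 : K))) : UP K)) = _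
    have : (g • (fun _ : ℕ => (1 : K))) = fun _ => 1 := by
      funext i
      exact smul_one g
    rw [this]
    rfl
  smul_mul g x y := by
    induction x, y using Germ.inductionOn₂ with
    | _ x y =>
    rw [← Germ.coe_mul, ← Germ.coe_smul, ← Germ.coe_smul, ← Germ.coe_smul, ← Germ.coe_mul]
    congr 1
    funext i
    exact smul_mul' g (x i) (y i)

theorem internal_add {T T' : UP K → UP K} (h : Internal T) (h' : Internal T') :
    Internal (fun x => T x + T' x) := by
  obtain ⟨t, ht⟩ := h
  obtain ⟨t', ht'⟩ := h'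
  refine ⟨fun i y => t i y + t' i y, fun x => ?_⟩
  show T x + T' x = _
  rw [ht, ht', ← Germ.coe_add]
  rfl

theorem internal_mul {T : UP K → UP K} (a : UP K) (h : Internal T) :
    Internal (fun x => a * T x) := by
  obtain ⟨t, ht⟩ := h
  induction a using Germ.inductionOn with
  | _ a =>
  refine ⟨fun i y => a i * t i y, fun x => ?_⟩
  show (a : UP K) * T x = _
  rw [ht, ← Germ.coe_mul]
  rfl

theorem internal_smul (g : G) : Internal (fun x : UP K => g • x) :=
  ⟨fun _ y => g • y, fun x => by
    show g • (↑x : UP K) = _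
    rw [← Germ.coe_smul]
    rfl⟩

theorem faithful_germ [FaithfulSMul G K] : FaithfulSMul G (UP K) := by
  refine ⟨fun {g g'} h => ?_⟩
  apply FaithfulSMul.eq_of_smul_eq_smul (α := K)
  intro k
  have := h (↑k : UP K)
  rw [← Germ.const_smul, ← Germ.const_smul, Germ.const_inj] at this
  exact this

theorem internal_of_mem [FaithfulSMul G K] (H : Subgroup G) [Finite H]
    (T : AddMonoid.End (UP K)) (hT : T ∈ endRing (FixedPoints.subfield H (UP K))) :
    Internal T := by
  classical
  have : FaithfulSMul G (UP K) := faithful_germ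
  have hf : FaithfulSMul H (UP K) := ⟨fun {g g'} h => by
    apply Subtype.ext
    apply FaithfulSMul.eq_of_smul_eq_smul (α := UP K)
    exact h⟩
  cases nonempty_fintype H
  let E := FixedPoints.subfield H (UP K)
  let eq := FixedPoints.toAlgHomEquiv H (UP K)
  let : Fintype (UP K →ₐ[E] UP K) := Fintype.ofEquiv H eq
  have hcard : Fintype.card (UP K →ₐ[E] UP K) = Module.finrank (UP K) (UP K →ₗ[E] UP K) := by
    rw [Module.finrank_linearMap_self, FixedPoints.finrank_eq_card H (UP K)]
    exact (Fintype.card_congr eq).symm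
  have hspan := (linearIndependent_toLinearMap E (UP K) (UP K)).span_eq_top_of_card_eq_finrank'
    hcard
  have hmem : endEquiv E ⟨T, hT⟩ ∈ Submodule.span (UP K)
      (Set.range (AlgHom.toLinearMap : (UP K →ₐ[E] UP K) → UP K →ₗ[E] UP K)) := by
    rw [hspan]; trivial
  have key : ∀ t ∈ Submodule.span (UP K)
      (Set.range (AlgHom.toLinearMap : (UP K →ₐ[E] UP K) → UP K →ₗ[E] UP K)),
      Internal (fun x => t x) := by
    intro t ht
    induction ht using Submodule.span_induction with
    | mem t ht =>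
      obtain ⟨φ, rfl⟩ := ht
      obtain ⟨g, rfl⟩ := eq.surjective φ
      exact internal_smul (g : G)
    | zero => exact ⟨fun _ _ => 0, fun x => rfl⟩
    | add t t' _ _ h h' => exact internal_add h h'
    | smul a t _ h => exact internal_mul a h
  exact key _ hmem

end galois


section base

/-- rational functions over the rationals in countably many variables -/
abbrev K0 : Type := FractionRing (MvPolynomial ℕ ℚ)

/-- renaming variables -/
noncomputable def renHom : Equiv.Perm ℕ →* (MvPolynomial ℕ ℚ ≃ₐ[ℚ] MvPolynomial ℕ ℚ) where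
  toFun σ := MvPolynomial.renameEquiv ℚ σ
  map_one' := by
    apply AlgEquiv.ext
    intro p
    simp [Equiv.Perm.one_def]
  map_mul' σ τ := by
    apply AlgEquiv.ext
    intro p
    simp [Equiv.Perm.mul_def, MvPolynomial.rename_rename, Equiv.coe_trans]

/-- the permutation action on rational functions -/
noncomputable def permHom : Equiv.Perm ℕ →* (K0 ≃ₐ[ℚ] K0) :=
  (IsFractionRing.fieldEquivOfAlgEquivHom ℚ K0).comp renHom

noncomputable instance permAct : MulSemiringAction (Equiv.Perm ℕ) K0 :=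
  MulSemiringAction.compHom K0 permHom

/-- the variables -/
noncomputable def vx (i : ℕ) : K0 := algebraMap (MvPolynomial ℕ ℚ) K0 (MvPolynomial.X i)

theorem vx_inj : Function.Injective vx := by
  intro i j h
  exact MvPolynomial.X_injective (IsFractionRing.injective (MvPolynomial ℕ ℚ) K0 h)

theorem smul_vx (σ : Equiv.Perm ℕ) (i : ℕ) : σ • vx i = vx (σ i) := by
  show permHom σ (vx i) = _
  simp [permHom, vx, renHom]

instance permFaithful : FaithfulSMul (Equiv.Perm ℕ) K0 := by
  refine ⟨fun {σ τ} h => ?_⟩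
  apply Equiv.ext
  intro i
  apply vx_inj
  rw [← smul_vx, ← smul_vx, h]

/-- permutations of the first variables -/
def HH (n : ℕ) : Subgroup (Equiv.Perm ℕ) where
  carrier := {σ | ∀ a, ¬ (a ≤ n) → σ a = a}
  mul_mem' := by
    intro σ τ hσ hτ a ha
    show σ (τ a) = a
    rw [hτ a ha, hσ a ha]
  one_mem' := fun _ _ => rfl
  inv_mem' := by
    intro σ hσ a ha
    rw [Equiv.Perm.inv_eq_iff_eq, hσ a ha]

instance finHH (n : ℕ) : Finite (HH n) := by
  have : Finite {x : ℕ // x ≤ n} := Set.finite_Iic n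
  exact Finite.of_equiv _ (Equiv.Perm.subtypeEquivSubtypePerm (fun x : ℕ => x ≤ n))

theorem mem_HH (n : ℕ) (σ : Equiv.Perm ℕ) : σ ∈ HH n ↔ ∀ x, n < x → σ x = x := by
  constructor
  · intro h x hx
    exact h x (not_le.2 hx)
  · intro h x hx
    exact h x (not_le.1 hx)

theorem HH_mono : Monotone HH := by
  intro m n hmn σ hσ
  rw [mem_HH] at *
  exact fun x hx => hσ x (lt_of_le_of_lt hmn hx)

/-- the tower of subfields -/
noncomputable def EE (n : ℕ) : Subfield (UP K0) := FixedPoints.subfield (HH n) (UP K0)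

theorem mem_EE (n : ℕ) (x : UP K0) : x ∈ EE n ↔ ∀ σ ∈ HH n, σ • x = x := by
  constructor
  · intro h σ hσ
    exact h ⟨σ, hσ⟩
  · intro h σ
    exact h σ σ.2

theorem EE_anti : Antitone EE := by
  intro m n hmn x hx
  rw [mem_EE] at *
  exact fun σ hσ => hx σ (HH_mono hmn hσ)

noncomputable instance fdEE (n : ℕ) : FiniteDimensional (EE n) (UP K0) := by
  unfold EE; infer_instance

theorem internal_EE (n : ℕ) (T : AddMonoid.End (UP K0)) (hT : T ∈ endRing (EE n)) :
    Internal T := internal_of_mem (HH n) T hT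

/-- strictness -/
theorem strict (n : ℕ) : ∃ T ∈ endRing (EE (n+1)), (∀ c ∈ EE (n+1), T c = 0) ∧
    ∃ c ∈ EE n, T c ≠ 0 := by
  let σ : Equiv.Perm ℕ := Equiv.swap n (n+1)
  have hσ : σ ∈ HH (n+1) := by
    rw [mem_HH]
    intro x hx
    exact Equiv.swap_apply_of_ne_of_ne (by omega) (by omega)
  let T : AddMonoid.End (UP K0) := DistribMulAction.toAddMonoidEnd _ (UP K0) σ - 1
  have hT : ∀ x, T x = σ • x - x := fun x => rfl
  refine ⟨T, ?_, ?_, ?_⟩
  · intro c hc x
    rw [mem_EE] at hc
    rw [hT, hT, smul_mul', hc σ hσ, mul_sub]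
  · intro c hc
    rw [mem_EE] at hc
    rw [hT, hc σ hσ, sub_self]
  · refine ⟨(↑(vx (n+1)) : UP K0), ?_, ?_⟩
    · rw [mem_EE]
      intro τ hτ
      rw [← Germ.const_smul, smul_vx]
      rw [mem_HH] at hτ
      rw [hτ (n+1) (by omega)]
    · rw [hT, sub_ne_zero, ← Germ.const_smul, smul_vx, Ne, Germ.const_inj]
      intro h
      have := vx_inj h
      simp [σ] at this

end base

section assembly

/-- the ring: the union of the endomorphism rings over the tower -/
noncomputable def RR : Subring (AddMonoid.End (UP K0)) := ⨆ n, endRing (EE n)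

theorem endRing_mono : Monotone fun n => endRing (EE n) := fun _ _ h => endRing_anti (EE_anti h)

theorem mem_RR (T : AddMonoid.End (UP K0)) : T ∈ RR ↔ ∃ n, T ∈ endRing (EE n) :=
  Subring.mem_iSup_of_directed endRing_mono.directed_le

variable {S : Type} [Ring S] (ρ : S →+* AddMonoid.End (UP K0)) (hinj : Function.Injective ρ)
  (hrange : ρ.range = RR)

/-- the subrings -/
noncomputable def AA (n : ℕ) : Subring S := (endRing (EE n)).comap ρ

include hinj hrange in
theorem AA_equiv (n : ℕ) : Nonempty (AA ρ n ≃+* endRing (EE n)) := by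
  let f : AA ρ n →+* endRing (EE n) :=
    (ρ.comp (AA ρ n).subtype).codRestrict (endRing (EE n)) (fun x => x.2)
  refine ⟨RingEquiv.ofBijective f ⟨?_, ?_⟩⟩
  · intro x y h
    apply Subtype.ext
    apply hinj
    exact congrArg Subtype.val h
  · intro T
    have h1 : (T : AddMonoid.End (UP K0)) ∈ ρ.range := by
      rw [hrange, mem_RR]
      exact ⟨n, T.2⟩
    obtain ⟨s, hs⟩ := h1
    refine ⟨⟨s, ?_⟩, ?_⟩
    · show ρ s ∈ endRing (EE n)
      rw [hs]; exact T.2
    · apply Subtype.ext
      exact hs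

theorem AA_mono : Monotone (AA ρ) := fun _ _ h _ hs => endRing_mono h hs

include hrange in
theorem AA_union (s : S) : ∃ n, s ∈ AA ρ n := by
  have : ρ s ∈ RR := by rw [← hrange]; exact ⟨s, rfl⟩
  rw [mem_RR] at this
  exact this

include hinj hrange in
theorem AA_ss (n : ℕ) : IsSemisimpleRing (AA ρ n) := by
  obtain ⟨e⟩ := AA_equiv ρ hinj hrange n
  have := ss_endRing (EE n)
  exact e.symm.isSemisimpleRing

include hinj hrange in
theorem AA_simple (n : ℕ) : IsSimpleRing (AA ρ n) := by
  obtain ⟨e⟩ := AA_equiv ρ hinj hrange n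
  have := simple_endRing (EE n)
  exact simple_of_equiv e.symm

include hinj hrange in
theorem vnrS (a : S) : ∃ x : S, a * x * a = a :=
  vnr (AA ρ) (AA_union ρ hrange) (AA_ss ρ hinj hrange) a

include hinj hrange in
theorem simpleS : IsSimpleRing S :=
  simple_union (AA ρ) (AA_union ρ hrange) (AA_simple ρ hinj hrange)

variable [Module S (UP K0)] (hact : ∀ (s : S) (x : UP K0), s • x = ρ s x)

include hrange hact in
theorem hintS (s : S) : Internal (fun x : UP K0 => s • x) := by
  obtain ⟨n, hn⟩ := AA_union ρ hrange s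
  have := internal_EE n (ρ s) hn
  have h2 : (fun x : UP K0 => s • x) = fun x => ρ s x := by
    funext x
    exact hact s x
  rw [h2]
  exact this

include hinj hrange hact in
theorem hkerS (n : ℕ) (p : S) (hp : p ∈ AA ρ n) (h : ∀ x : UP K0, p • x = 0 → x = 0) :
    ∃ q : S, q * p = 1 := by
  obtain ⟨T', hT', h1⟩ := inv_endRing (EE n) (ρ p) hp (by
    intro x hx
    apply h
    rw [hact, hx])
  have h1 : T' ∈ ρ.range := by
    rw [hrange, mem_RR]
    exact ⟨n, hT'⟩
  obtain ⟨q, rfl⟩ := h1
  refine ⟨q, hinj ?_⟩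
  rw [map_mul, map_one]
  assumption

include hinj hrange hact in
theorem killS (L : Ideal S) (hL : L ≠ ⊤) : ∃ v : UP K0, v ≠ 0 ∧ ∀ s ∈ L, s • v = 0 :=
  exists_killed (AA ρ) (AA_mono ρ) (AA_union ρ hrange) (AA_ss ρ hinj hrange)
    (hintS ρ hrange hact) (hkerS ρ hinj hrange hact) L hL

include hinj hrange hact in
theorem injS : Module.Injective S (UP K0) :=
  Module.Baer.injective (baer (AA ρ) (AA_mono ρ) (AA_union ρ hrange) (AA_ss ρ hinj hrange)
    (hintS ρ hrange hact))

include hrange hact in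
theorem simpleModS : IsSimpleModule S (UP K0) := by
  apply simpleF
  intro x y hx
  have h1 : (AddMonoidHom.mulLeft (y * x⁻¹) : AddMonoid.End (UP K0)) ∈ RR := by
    refine (mem_RR _).2 ⟨0, fun c _ z => ?_⟩
    show y * x⁻¹ * (c * z) = c * (y * x⁻¹ * z)
    ring
  rw [← hrange] at h1
  obtain ⟨s, hs⟩ := h1
  refine ⟨s, ?_⟩
  rw [hact, hs]
  show y * x⁻¹ * x = y
  rw [mul_assoc, inv_mul_cancel₀ hx, mul_one]

include hrange hact in
theorem not_noeth (hN : IsNoetherianRing S) : False := by
  let L : ℕ →o Ideal S :=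
    { toFun := fun n =>
        { carrier := {s | ∀ c ∈ EE n, s • c = 0}
          add_mem' := by
            intro a b ha hb c hc
            rw [add_smul, ha c hc, hb c hc, add_zero]
          zero_mem' := by
            intro c _
            rw [zero_smul]
          smul_mem' := by
            intro a b hb c hc
            rw [smul_eq_mul, mul_smul, hb c hc, smul_zero] }
      monotone' := by
        intro m n hmn s hs c hc
        exact hs c (EE_anti hmn hc) }
  obtain ⟨n, hn⟩ := monotone_stabilizes_iff_noetherian.2 hN L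
  obtain ⟨T, hT, h1, c, hc, h2⟩ := strict n
  have h3 : T ∈ ρ.range := by
    rw [hrange, mem_RR]
    exact ⟨_, hT⟩
  obtain ⟨s, rfl⟩ := h3
  apply h2
  have h4 : s ∈ L (n+1) := by
    intro c hc
    rw [hact]
    exact h1 c hc
  rw [← hn (n+1) (Nat.le_succ n)] at h4
  have := h4 c hc
  rw [hact] at this
  exact this

end assembly


section final

/-- the doubly opposite ring acts on the field -/
noncomputable def rho2 : ((RR)ᵐᵒᵖ)ᵐᵒᵖ →+* AddMonoid.End (UP K0) :=
  (RR.subtype).comp ((RingEquiv.opOp RR).symm : ((RR)ᵐᵒᵖ)ᵐᵒᵖ →+* RR)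

theorem rho2_inj : Function.Injective rho2 :=
  RR.subtype_injective.comp (RingEquiv.opOp RR).symm.injective

theorem rho2_range : rho2.range = RR := by
  ext T
  constructor
  · rintro ⟨s, rfl⟩
    exact ((RingEquiv.opOp RR).symm s).2
  · intro hT
    exact ⟨MulOpposite.op (MulOpposite.op ⟨T, hT⟩), rfl⟩

theorem rho1_range : RR.subtype.range = RR := by
  ext T
  constructor
  · rintro ⟨s, rfl⟩
    exact s.2
  · intro hT
    exact ⟨⟨T, hT⟩, rfl⟩

/-- There is a simple von Neumann regular ring `R` which is not artinian (on either side) and has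
exactly one simple right module `M` up to isomorphism; moreover `M` is injective.  Hence `M` is, up
to isomorphism, the only indecomposable injective right `R`-module with a simple submodule. -/
theorem result : ∃ (R : Type) (_ : Ring R),
    (∀ a : R, ∃ x : R, a * x * a = a) ∧ IsSimpleRing R ∧
      ¬ IsArtinianRing R ∧ ¬ IsArtinianRing Rᵐᵒᵖ ∧
      ∃ (M : Type) (_ : AddCommGroup M) (_ : Module Rᵐᵒᵖ M),
        Module.Injective Rᵐᵒᵖ M ∧ IsSimpleModule Rᵐᵒᵖ M ∧
        (∀ (N : Type) [AddCommGroup N] [Module Rᵐᵒᵖ N],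
          IsSimpleModule Rᵐᵒᵖ N → Nonempty (N ≃ₗ[Rᵐᵒᵖ] M)) ∧
        (∀ (N : Type) [AddCommGroup N] [Module Rᵐᵒᵖ N],
          Module.Injective Rᵐᵒᵖ N →
          (∀ A B : Submodule Rᵐᵒᵖ N, IsCompl A B → A = ⊥ ∨ A = ⊤) →
          (∃ W : Submodule Rᵐᵒᵖ N, IsSimpleModule Rᵐᵒᵖ W) →
          Nonempty (N ≃ₗ[Rᵐᵒᵖ] M)) := by
  let ρ := rho2
  let : Module ((RR)ᵐᵒᵖ)ᵐᵒᵖ (UP K0) := Module.compHom (UP K0) ρ
  have hact : ∀ (s : ((RR)ᵐᵒᵖ)ᵐᵒᵖ) (x : UP K0), s • x = ρ s x := fun _ _ => rfl
  have hsimpleR : IsSimpleRing RR := simpleS RR.subtype RR.subtype_injective rho1_range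
  have hsimpleS : IsSimpleRing ((RR)ᵐᵒᵖ)ᵐᵒᵖ := simpleS ρ rho2_inj rho2_range
  have hsm : IsSimpleModule ((RR)ᵐᵒᵖ)ᵐᵒᵖ (UP K0) := simpleModS ρ rho2_range hact
  have hinj := injS ρ rho2_inj rho2_range hact
  have hks := killS ρ rho2_inj rho2_range hact
  have hsi : ∀ (N : Type) [AddCommGroup N] [Module ((RR)ᵐᵒᵖ)ᵐᵒᵖ N],
      IsSimpleModule ((RR)ᵐᵒᵖ)ᵐᵒᵖ N → Nonempty (N ≃ₗ[((RR)ᵐᵒᵖ)ᵐᵒᵖ] UP K0) := by
    intro N _ _ hN
    exact simple_iso hks N
  have hnn := not_noeth ρ rho2_range hact
  refine ⟨(RR)ᵐᵒᵖ, inferInstance, ?_, inferInstance, ?_, ?_, UP K0, inferInstance, inferInstance,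
    hinj, hsm, hsi, ?_⟩
  · intro a
    obtain ⟨x, hx⟩ := vnrS RR.subtype RR.subtype_injective rho1_range a.unop
    refine ⟨MulOpposite.op x, ?_⟩
    apply MulOpposite.unop_injective
    simp only [MulOpposite.unop_mul, MulOpposite.unop_op]
    rw [← mul_assoc]
    exact hx
  · intro hart
    have h1 : IsSemisimpleRing (RR)ᵐᵒᵖ := inferInstance
    have h2 : IsSemisimpleRing ((RR)ᵐᵒᵖ)ᵐᵒᵖ := inferInstance
    exact hnn inferInstance
  · intro hart
    have h2 : IsSemisimpleRing ((RR)ᵐᵒᵖ)ᵐᵒᵖ := inferInstance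
    exact hnn inferInstance
  · intro N _ _ hN hdec hW
    obtain ⟨W, hW⟩ := hW
    exact indec_iso hinj hsi N hdec W hW

end final

end Pool.Agent.Results.MP_57313b_al.UniqueSimple
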